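import Pool.Agent.Lib.MP_00f11d_al.Main

namespace Pool.Agent.Results.MP_00f11d_al.DenselyMinimal

open Pool.Agent.Lib.MP_00f11d_al

universe u

/-- Q1: a densely minimal topological abelian group is hereditarily minimal. -/
theorem result (G : Type u) [AddCommGroup G] [TopologicalSpace G] [IsTopologicalAddGroup G]
    [T2Space G] (h : ∀ H : AddSubgroup G, Dense (H : Set G) → IsMinimalGroup H) :
    ∀ H : AddSubgroup G, IsMinimalGroup H :=
  main h

end Pool.Agent.Results.MP_00f11d_al.DenselyMinimal
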